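import Pool.Agent.W5h57.FT.Fam

/-!
# Groups acting on trees with commensurable edge stabilizers of finite rank

The class `C` of groups is closed under subgroups, finite products, free products, overgroups of finite
index, directed colimits, satisfies the extension criterion of the Farrell-Jones conjecture
(`Pool.Agent.Y110.FJ.ClosedE`) and contains the semidirect products of a free group and `ℤ`, the
solvable groups and the groups `GL_n(ℚ)`.

Let `G` act on a tree. The theorem below implies:

* If the vertex stabilizers are virtually polycyclic and the stabilizers of the edges have finite index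
  in the stabilizers of their ends, then `G` is in `C`. (Take `N = G` and `A v = G_v`.)
* If each vertex stabilizer `G_v` is an extension of a group in `C` by a virtually polycyclic group `A_v`,
  permuted by `G`, which contains the stabilizers of the edges at `v` as subgroups of finite index, then
  `G` is in `C`. For instance the vertex stabilizers are finitely generated torsionfree nilpotent groups
  and all stabilizers of edges are commensurable (`A_v` is the isolator of the edge groups).
* Let `A_v` be arbitrary subgroups permuted by `G` which contain the stabilizers of the edges at `v` as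
  subgroups of finite index, and let `G_v ⧸ A_v` be in `C`. If the image of `G` in the abstract
  commensurator of `A_v` is in `C` and the subgroup of the elements of `A_v` with centralizer of finite
  index is of finite rank, then `G` is in `C`. (`N` is the kernel of the homomorphism to the abstract
  commensurator.)

Outline of the proof. Let `L` be the group generated by the `A_v`. By gluing homomorphisms along the
tree one sees that `L ∩ G_v = A_v`. The quotient of the tree by `L` is a tree, on which `G ⧸ L` acts with
vertex stabilizers `G_v ⧸ A_v` such that the map to `G ⧸ N` is injective on the stabilizers of the edges; so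
`G ⧸ L` is in `C` (`DetectedEdges`, helper90). The groups `L ∩ G_v` are commensurable. `G` acts linearly
on the finite-dimensional rational vector space of germs of homomorphisms from one of these groups to
`ℚ`; let `L_1` be the kernel of this action on `L`. The germs are homomorphisms on the groups `L_1 ∩ G_v`
and invariant under `L_1`; so they extend to homomorphisms on `L_1`, again by gluing along the tree. If
`L_2` is the intersection of the kernels of all homomorphisms from `L_1` to `ℚ`, then `G ⧸ L_2` is in `C`,
and the groups `L_2 ∩ G_v` have smaller rank than `L ∩ G_v`. In the end the vertex stabilizers are finite.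
One may assume that `G` is finitely generated, so that the orders of these finite groups are bounded on an
invariant subtree. The intersection `L_3` of the kernels of all homomorphisms to the symmetric group of a
suitable degree acts freely on this subtree, and `L_2 ⧸ L_3` is locally finite.
-/

set_option autoImplicit false

namespace Pool.Agent.Results.MP_c052b4_al.CommensurableEdges

open MulAction Pool.Agent.Y110.FJ

/-- `D` has a chain `D = D_0 ≥ D_1 ≥ ⋯ ≥ D_n = 1` of subgroups such that `D_{i+1}` is the kernel of a
homomorphism from `D_i` to the additive group of `ℚ`. -/
def QChain {G : Type} [Group G] : ℕ → Subgroup G → Prop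
  | 0, D => D = ⊥
  | n + 1, D => ∃ f : D →* Multiplicative ℚ, QChain n (f.ker.map D.subtype)

/-- `A` has a subgroup of finite index with such a chain. For instance this holds for virtually
polycyclic groups and for torsionfree nilpotent groups of finite rank. -/
def VirtuallyQChain {G : Type} [Group G] (A : Subgroup G) : Prop :=
  ∃ (n : ℕ) (D : Subgroup G), D ≤ A ∧ D.relIndex A ≠ 0 ∧ QChain n D

theorem qchain_iff {G : Type} [Group G] : ∀ (n : ℕ) (D : Subgroup G),
    QChain n D → Pool.Agent.W5h57.FT.PQ n D
  | 0, _, h => h
  | n + 1, _, ⟨f, hf⟩ => ⟨f, qchain_iff n _ hf⟩

/-- **Groups acting on trees with commensurable edge stabilizers of finite rank.** -/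
theorem result (C : ∀ (G : Type) [Group G], Prop) (hC : ClosedE C)
    (hF : ∀ (X : Type) (α : MulAut (FreeGroup X)),
      C (FreeGroup X ⋊[zpowersHom (MulAut (FreeGroup X)) α] Multiplicative ℤ))
    (hS : ∀ (S : Type) [Group S], Group.IsSolvable S → C S)
    (hG : ∀ n : ℕ, C (Matrix.GeneralLinearGroup (Fin n) ℚ))
    (G V : Type) [Group G] [MulAction G V] (T : SimpleGraph V) (hT : T.IsTree)
    (hadj : ∀ (g : G) (u w : V), T.Adj u w → T.Adj (g • u) (g • w))
    (N : Subgroup G) [N.Normal] (hN : C (G ⧸ N))
    (A : V → Subgroup G) (hA : ∀ v : V, A v ≤ N ⊓ stabilizer G v)
    (hconj : ∀ (g : G) (v : V), ∀ x ∈ A v, g * x * g⁻¹ ∈ A (g • v))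
    [∀ v : V, ((A v).subgroupOf (stabilizer G v)).Normal]
    (hvert : ∀ v : V, C (stabilizer G v ⧸ (A v).subgroupOf (stabilizer G v)))
    (hedge : ∀ u w : V, T.Adj u w → N ⊓ stabilizer G u ⊓ stabilizer G w ≤ A u ∧
      (N ⊓ stabilizer G u ⊓ stabilizer G w).relIndex (A u) ≠ 0)
    (hrank : ∃ v : V, VirtuallyQChain (A v)) : C G := by
  obtain ⟨v, n, D, h1, h2, h3⟩ := hrank
  refine Pool.Agent.W5h57.FT.fam_main hC hF (fun S _ hS' => ?_) hG hT hadj hN hA hconj
    (fun v _ => hvert v) (fun u w h => (hedge u w h).1) (fun u w h => (hedge u w h).2) v n D h1 h2
    (qchain_iff n D h3)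
  refine hS S ?_
  rw [Group.isSolvable_def]
  refine ⟨2, ?_⟩
  rw [eq_bot_iff, derivedSeries_succ, derivedSeries_one, Subgroup.commutator_le]
  intro a ha b hb
  rw [Subgroup.mem_bot, commutatorElement_def, hS' a ha b hb]
  group

end Pool.Agent.Results.MP_c052b4_al.CommensurableEdges
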