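import Pool.Agent.W5h2.CT.Main

/-!
# Groups acting on trees with commensurable vertex stabilizers

The class `C` of groups is closed under subgroups, finite products, free products, overgroups of finite
index, directed colimits, satisfies the extension criterion of the Farrell-Jones conjecture
(`Pool.Agent.Y110.FJ.ClosedE`) and contains the semidirect products of a free group and `ℤ`.

Let `G` act without inversions on a tree such that the stabilizers of adjacent vertices are commensurable,
let `Λ` be one of the stabilizers, and let `P` be a group that contains `Λ` in such a way that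

* only the neutral element of `P` commutes with all elements of a subgroup of finite index of `Λ`;
* each `g` in `G` has a partner `p` in `P` with `g a g⁻¹ = p a p⁻¹` for all `a` in some subgroup of finite
  index of `Λ` with `g a g⁻¹ ∈ Λ` (for instance: each isomorphism between subgroups of finite index of
  `Λ` is induced by exactly one element of `P`, as for the commensurator of a lattice in a centreless
  semisimple group for which strong rigidity holds).

Then the partners define a homomorphism `φ : G → P`. Its kernel acts freely on the tree if no vertex
stabilizer has a nontrivial element of finite order commuting with a subgroup of finite index (for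
instance, if `G` is torsionfree): an element `k` of a vertex stabilizer `G_w` with `φ k = 1` commutes with
a subgroup of finite index of `G_w`, and a power of `k` is in `Λ`, where `φ` is injective. So `G` is an
extension of a free group by a subgroup of `P`, and it is in the class if `P` is.
-/

set_option autoImplicit false

namespace Pool.Agent.Results.MP_c052b4_al.CommensurableTrees

open MulAction Subgroup Pool.Agent.Y110.FJ

/-- `g` acts on a subgroup of finite index of `Λ` like `p`: for all its elements `a` with
`g a g⁻¹ ∈ Λ` the image of `g a g⁻¹` in `P` is `p a p⁻¹`. -/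
def Partner {G P : Type} [Group G] [Group P] (Λ : Subgroup G) (ι : Λ →* P) (g : G) (p : P) : Prop :=
  ∃ A : Subgroup Λ, A.index ≠ 0 ∧
    ∀ a ∈ A, ∀ b : Λ, (b : G) = g * a * g⁻¹ → ι b = p * ι a * p⁻¹

/-- Only the neutral element of `P` commutes with all elements of a subgroup of finite index of `Λ`. -/
def Rigid {Λ P : Type} [Group Λ] [Group P] (ι : Λ →* P) : Prop :=
  ∀ A : Subgroup Λ, A.index ≠ 0 → ∀ p : P, (∀ a ∈ A, p * ι a = ι a * p) → p = 1

/-- No element of finite order of `H` except for the neutral one commutes with all elements of a
subgroup of finite index of `H`. -/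
def NoFiniteCentre {G : Type} [Group G] (H : Subgroup G) : Prop :=
  ∀ k ∈ H, IsOfFinOrder k → (∃ A : Subgroup H, A.index ≠ 0 ∧ ∀ a ∈ A, k * (a : G) = a * k) → k = 1

/-- **Groups acting on trees with commensurable vertex stabilizers.**  `G` is an extension of a free
group by a subgroup of `P`, and it is in every class `C` with the closure properties that contains `P`
and the semidirect products of free groups and `ℤ`. -/
theorem result (G V P : Type) [Group G] [MulAction G V] [Group P] (T : SimpleGraph V) (hT : T.IsTree)
    (hadj : ∀ (g : G) (u w : V), T.Adj u w → T.Adj (g • u) (g • w))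
    (hinv : ∀ (g : G) (u w : V), T.Adj u w → ¬ (g • u = w ∧ g • w = u))
    (hcom : ∀ u w : V, T.Adj u w → Commensurable (stabilizer G u) (stabilizer G w))
    (hfin : ∀ w : V, NoFiniteCentre (stabilizer G w))
    (v : V) (ι : stabilizer G v →* P) (hι : Function.Injective ι) (hrig : Rigid ι)
    (hpart : ∀ g : G, ∃ p : P, Partner (stabilizer G v) ι g p) :
    (∃ φ : G →* P, (∀ a : stabilizer G v, φ a = ι a) ∧
      (∀ (w : V), ∀ k ∈ stabilizer G w, φ k = 1 → k = 1) ∧ IsFreeGroup φ.ker) ∧
    ∀ C : ∀ (G : Type) [Group G], Prop, ClosedE C →
      (∀ (X : Type) (α : MulAut (FreeGroup X)),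
        C (FreeGroup X ⋊[zpowersHom (MulAut (FreeGroup X)) α] Multiplicative ℤ)) →
      C P → C G := by
  obtain ⟨φ, h1, h2, h3⟩ := Pool.Agent.W5h2.CT.main v ι T hT hadj hinv hcom hι hrig
    (fun g => by
      obtain ⟨p, A, hA, hp⟩ := hpart g
      exact ⟨A, hA, p, hp⟩)
    (fun w k hk hk' hA => hfin w k (mem_stabilizer_iff.2 hk) hk' hA)
  refine ⟨⟨φ, h1, fun w k hk => h2 w k (mem_stabilizer_iff.1 hk), h3⟩, fun C hC hF hP => ?_⟩
  exact Pool.Agent.W5h2.CT.in_class hC hF hP φ h3

end Pool.Agent.Results.MP_c052b4_al.CommensurableTrees
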