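import Pool.Agent.W5h90.CR.Asm

/-!
# The groups `GL_2` over coordinate rings

The class `C` of groups is closed under subgroups, finite products, free products, overgroups of finite
index, directed colimits, satisfies the extension criterion of the Farrell-Jones conjecture
(`Pool.Agent.Y110.FJ.ClosedE`) and contains the semidirect products of a free group and `ℤ`. All this is
published for the class of groups which satisfy the Full Farrell-Jones Conjecture.

Let `k` be a field such that `C` contains `GL_2(F)` for all finite field extensions `F` of `k`; for the
Farrell-Jones class this holds for the number fields and the global function fields (Rüping) and for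
their algebraic closures. Let `R` be a commutative `k`-algebra without zero divisors, with a degree
function `deg : R → ℕ` such that `deg (a b) = deg a + deg b` for nonzero `a, b` and
`deg (a + b) ≤ max (deg a) (deg b)`, and such that for each `n` the elements of degree at most `n` lie in a
finite dimensional `k`-space. Then `GL_2(R)` is in `C`. Examples:

* the coordinate ring of an affine curve over `k` with one place at infinity, for instance of an
  elliptic curve without the origin;
* the coordinate ring of `X \ D`, where `X` is a normal projective variety over `k` and `D` is an
  irreducible ample divisor (`deg` is the order of the pole along `D`);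
* the polynomial rings over these rings, in finitely many variables.

The ring `R` may be far from Euclidean, and its ideal class group may be large.

Outline of the proof. `GL_2(R)` acts on the tree of `GL_2` over the field of fractions of `R`, for the
discrete valuation `-deg`. A matrix in the stabilizer of a vertex has entries of bounded degree. Let `H`
be a finitely generated subgroup of `GL_2(R)`. It is contained in `GL_2(A)` for a finitely generated
subalgebra `A`. By the Nullstellensatz finitely many maximal ideals `I` of `A` detect the elements of `A` of
bounded degree, so that the homomorphism from `H` to the product of the groups `GL_2(A/I)`, which is in `C`,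
is injective on the stabilizer of the vertex. So the theorem on groups acting on trees with detected
edge stabilizers (`MP_28303a_al.DetectedEdges`) applies.
-/

set_option autoImplicit false

namespace Pool.Agent.Results.MP_c052b4_al.CoordinateRings

open Pool.Agent.Y110.FJ

/-- **`GL_2` over coordinate rings.** -/
theorem result (C : ∀ (G : Type) [Group G], Prop) (hC : ClosedE C)
    (hF : ∀ (X : Type) (α : MulAut (FreeGroup X)),
      C (FreeGroup X ⋊[zpowersHom (MulAut (FreeGroup X)) α] Multiplicative ℤ))
    (k R : Type) [Field k] [CommRing R] [IsDomain R] [Algebra k R]
    (hk : ∀ (F : Type) [Field F] [Algebra k F] [FiniteDimensional k F],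
      C (Matrix.GeneralLinearGroup (Fin 2) F))
    (deg : R → ℕ) (hmul : ∀ a b : R, a ≠ 0 → b ≠ 0 → deg (a * b) = deg a + deg b)
    (hadd : ∀ a b : R, deg (a + b) ≤ max (deg a) (deg b))
    (hfin : ∀ n : ℕ, ∃ s : Finset R, ∀ a : R, deg a ≤ n → a ∈ Submodule.span k (s : Set R)) :
    C (Matrix.GeneralLinearGroup (Fin 2) R) :=
  Pool.Agent.W5h90.CR.main_gl hC hF hk ⟨hmul, hadd⟩ hfin

end Pool.Agent.Results.MP_c052b4_al.CoordinateRings
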