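import Pool.Agent.W5h2.GE.Main

/-!
# The groups `GE_2` over polynomial rings, free algebras, Weyl algebras, ...

`C` is any class of groups with the closure properties `ClosedE C` which contains the solvable groups
and the groups `F ⋊ Z` for all free groups `F`. All this is published for the class of groups which
satisfy the Full Farrell–Jones Conjecture.

Let `R` be a ring, not necessarily commutative, with a valuation `v` (written multiplicatively, with
values in any linearly ordered abelian group with zero) which is trivial on a subring `A` and greater
than one on the nonzero elements of an additive subgroup `M` with `a M b ⊆ M` for all units `a, b` of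
`A`. Let `H` be any group of invertible two by two matrices over `A`. If `H` is in `C`, then the group
generated by `H` and by the matrices with rows `1, m` and `0, 1`, `m` in `M`, is in `C`. In particular, if
`R = A + M` and `GE_2(A)` is in `C`, then `GE_2(R)` is in `C`. This applies to

* the polynomial rings `R = A[X]` over any domain `A` in any set of variables, and the skew polynomial
  rings `A[t; σ]`;
* the free algebras `R = A⟨X⟩` over any domain `A` and any set `X`; if `A = k` is a field,
  then `GE_2(R) = GL_2(R)` by a theorem of Cohn;
* all algebras `R` over a central field `A = k` with a degree function which is positive outside of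
  `k`, for instance the Weyl algebras and the enveloping algebras of Lie algebras (here `M` is any
  complement of `k`; no homomorphism from `R` to `k` is needed).

The class contains the groups `GL_2(k)` for the number fields and the global function fields `k`
(Rüping), and `GL_2(Z)`.

Outline of the proof. Let `G = ⟨H, U(M)⟩`, and let `H0` be the group of the upper triangular elements of
`H`. It normalizes `U(M)`. Looking at the values of the entries in the second column, one sees that the
product `u_1 g_1 u_2 g_2 ... g_{n-1} u_n`, with `u_i ≠ 1` in `U(M)` and `g_i` in `H \ H0`, is not in `H`. So the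
normal closure `N` of `U(M)` in `G` is the free product of the conjugates of `U(M)` by representatives of
the cosets of `H0` in `H`, and `G` is the semidirect product of `N` and `H`. The group `G` permutes the
`N`-conjugacy classes of the factors, and the groups `U(M) ⟨g⟩` are metabelian. So the theorem on free
products (`MP_490288_al.FreeProductExtensions`) applies.
-/

set_option autoImplicit false

namespace Pool.Agent.Results.MP_c052b4_al.DegreeRingsGE2

open Pool.Agent.Y110.FJ Pool.Agent.W5h2.GE

theorem result (C : ∀ (G : Type) [Group G], Prop) (hC : ClosedE C)
    (hF : ∀ (X : Type) (α : MulAut (FreeGroup X)),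
      C (FreeGroup X ⋊[zpowersHom (MulAut (FreeGroup X)) α] Multiplicative ℤ))
    (hS : ∀ (S : Type) [Group S], Group.IsSolvable S → C S)
    (R Γ : Type) [Ring R] [LinearOrderedCommGroupWithZero Γ] (v : Valuation R Γ)
    (A : Subring R) (M : AddSubgroup R) (hv : Deg v A M)
    (H : Subgroup (Matrix (Fin 2) (Fin 2) R)ˣ) (hH : ∀ h ∈ H, ∀ i j, h.1 i j ∈ A) (hCH : C H) :
    C ↥(H ⊔ upper M) ∧ ((∀ r : R, ∃ a ∈ A, r - a ∈ M) → GE2 A ≤ H →
      GE2 (⊤ : Subring R) ≤ H ⊔ upper M ∧ C ↥(GE2 (⊤ : Subring R))) :=
  main_ge hC hF hS hv hH hCH

end Pool.Agent.Results.MP_c052b4_al.DegreeRingsGE2
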